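import Pool.Agent.R804.Tysz.Main

/-!
# Determinants of matrices with restricted row patterns

For every admissible `(n-1) × n` matrix `B` and every column `j`, `|det B^(j)| ≤ 2^(n-1)`.
-/

set_option autoImplicit false

namespace Pool.Agent.Results.MP_a06539_co.DetBound

open Pool.Agent.R804.Tysz

/-- With `n = m + 1`: `|det B^(j)| ≤ 2^(n-1)` for every admissible `(n-1) × n` matrix `B` and
every column index `j`. -/
theorem result (m : ℕ) (B : Matrix (Fin m) (Fin (m + 1)) ℝ) (hB : Admissible B)
    (j : Fin (m + 1)) : |(B.submatrix id j.succAbove).det| ≤ 2 ^ m :=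
  main B hB j

end Pool.Agent.Results.MP_a06539_co.DetBound
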