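import Mathlib

/-!
# Determinants of matrices with restricted row patterns are at most `2 ^ (n - 1)`

Every row of an admissible matrix has positive part of sum at most `2` and negative part of sum at
most `1`. For square matrices of order `m` whose rows have this property the determinant is at most
`2 ^ m` in absolute value: induction on `m`, using linearity in the first row and a column operation.
-/

set_option autoImplicit false

open Matrix Finset

namespace Pool.Agent.Results.MP_a06539_co.PowerOfTwo

/-- `B` is admissible: in each row the list of the nonzero entries, read from left to right, is one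
of the six lists of the problem. -/
def Admissible {m n : ℕ} (B : Matrix (Fin m) (Fin n) ℝ) : Prop :=
  ∀ r : Fin m, (List.ofFn (B r)).filter (fun x => x ≠ 0) ∈
    ([[1], [-1, 2], [2, -1], [-1, 1, 1], [1, -1, 1], [1, 1, -1]] : List (List ℝ))

/-- the rows with positive part of sum at most `2` and negative part of sum at most `1` -/
def InS {m : ℕ} (v : Fin m → ℝ) : Prop :=
  ∑ j, max (v j) 0 ≤ 2 ∧ ∑ j, max (-v j) 0 ≤ 1

theorem inS_succAbove {m : ℕ} {v : Fin (m + 1) → ℝ} (h : InS v) (i : Fin (m + 1)) :
    InS fun j => v (i.succAbove j) := by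
  obtain ⟨h1, h2⟩ := h
  rw [Fin.sum_univ_succAbove _ i] at h1 h2
  exact ⟨by linarith [le_max_right (v i) 0], by linarith [le_max_right (-v i) 0]⟩

theorem inS_shift {m : ℕ} {v : Fin (m + 1) → ℝ} (h : InS v) (i k : Fin (m + 1)) (hik : k ≠ i) :
    InS fun j => (Function.update v k (v k + (1 / 2) * v i)) (i.succAbove j) := by
  obtain ⟨h1, h2⟩ := h
  obtain ⟨k, rfl⟩ := Fin.exists_succAbove_eq hik
  rw [Fin.sum_univ_succAbove _ i, ← Finset.add_sum_erase _ _ (mem_univ k)] at h1 h2
  have e : ∀ j ∈ univ.erase k, Function.update v (i.succAbove k)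
      (v (i.succAbove k) + (1 / 2) * v i) (i.succAbove j) = v (i.succAbove j) := by
    intro j hj
    rw [Function.update_of_ne]
    exact fun h => (Finset.mem_erase.1 hj).1 (Fin.succAbove_right_injective h)
  constructor
  · rw [← Finset.add_sum_erase _ _ (mem_univ k)]
    simp only [Function.update_self]
    rw [Finset.sum_congr rfl fun j hj => by rw [e j hj]]
    have : max (v (i.succAbove k) + 1 / 2 * v i) 0 ≤ max (v (i.succAbove k)) 0 + max (v i) 0 := by
      refine max_le ?_ (add_nonneg (le_max_right _ _) (le_max_right _ _))
      have := le_max_left (v (i.succAbove k)) 0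
      have h3 := le_max_left (v i) 0
      have h4 := le_max_right (v i) 0
      rcases le_total 0 (v i) with h5 | h5 <;> linarith
    linarith
  · rw [← Finset.add_sum_erase _ _ (mem_univ k)]
    simp only [Function.update_self]
    rw [Finset.sum_congr rfl fun j hj => by rw [e j hj]]
    have : max (-(v (i.succAbove k) + 1 / 2 * v i)) 0 ≤
        max (-v (i.succAbove k)) 0 + max (-v i) 0 := by
      refine max_le ?_ (add_nonneg (le_max_right _ _) (le_max_right _ _))
      have := le_max_left (-v (i.succAbove k)) 0
      have h3 := le_max_left (-v i) 0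
      have h4 := le_max_right (-v i) 0
      rcases le_total 0 (v i) with h5 | h5 <;> linarith
    linarith

/-- the signed cofactors of the first row -/
noncomputable def cof {m : ℕ} (A : Matrix (Fin (m + 1)) (Fin (m + 1)) ℝ) (j : Fin (m + 1)) : ℝ :=
  (-1) ^ (j : ℕ) * (A.submatrix Fin.succ j.succAbove).det

theorem det_updateRow_zero {m : ℕ} (A : Matrix (Fin (m + 1)) (Fin (m + 1)) ℝ)
    (v : Fin (m + 1) → ℝ) : (A.updateRow 0 v).det = ∑ j, v j * cof A j := by
  rw [Matrix.det_succ_row_zero]
  refine Finset.sum_congr rfl fun j _ => ?_
  rw [Matrix.updateRow_self, cof]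
  have : (A.updateRow 0 v).submatrix Fin.succ j.succAbove = A.submatrix Fin.succ j.succAbove := by
    ext a b
    rw [Matrix.submatrix_apply, Matrix.submatrix_apply, Matrix.updateRow_ne (Fin.succ_ne_zero a)]
  rw [this]
  ring

theorem abs_sign (j : ℕ) (x : ℝ) : |(-1) ^ j * x| = |x| := by
  rw [abs_mul, abs_pow, abs_neg, abs_one, one_pow, one_mul]

theorem det_le (m : ℕ) : ∀ M : Matrix (Fin m) (Fin m) ℝ, (∀ r, InS (M r)) → |M.det| ≤ 2 ^ m := by
  induction m with
  | zero => intro M _; simp
  | succ m ih =>
    intro M hM
    have hC : ∀ i, |cof M i| ≤ 2 ^ m := by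
      intro i
      rw [cof, abs_sign]
      exact ih _ fun r => inS_succAbove (hM r.succ) i
    have hC2 : ∀ i k, i ≠ k → |2 * cof M i - cof M k| ≤ 2 ^ (m + 1) := by
      intro i k hik
      let v : Fin (m + 1) → ℝ := Pi.single i 2 - Pi.single k 1
      have h1 : (M.updateRow 0 v).det = 2 * cof M i - cof M k := by
        rw [det_updateRow_zero]
        simp only [v, Pi.sub_apply, sub_mul, Finset.sum_sub_distrib, Pi.single_apply, ite_mul,
          zero_mul, one_mul, Finset.sum_ite_eq', Finset.mem_univ, if_true]
      rw [← h1, ← Matrix.det_updateCol_add_smul_self (M.updateRow 0 v) hik.symm (1 / 2 : ℝ)]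
      set N := (M.updateRow 0 v).updateCol k
        (fun a => (M.updateRow 0 v) a k + (1 / 2 : ℝ) • (M.updateRow 0 v) a i) with hN
      have hrow0 : ∀ j, N 0 j = if j = i then 2 else 0 := by
        intro j
        by_cases hj : j = k
        · subst hj
          rw [hN, Matrix.updateCol_self, if_neg hik.symm, Matrix.updateRow_self]
          simp [v, hik]
        · rw [hN, Matrix.updateCol_ne hj, Matrix.updateRow_self]
          simp [v, Pi.single_apply, hj]
      have hdet : N.det = (-1) ^ (i : ℕ) * (2 * (N.submatrix Fin.succ i.succAbove).det) := by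
        rw [Matrix.det_succ_row_zero, Finset.sum_eq_single i]
        · rw [hrow0, if_pos rfl]; ring
        · intro j _ hj
          rw [hrow0, if_neg hj]; ring
        · intro h; exact absurd (mem_univ _) h
      rw [hdet, abs_sign, abs_mul, abs_two, pow_succ, mul_comm]
      refine mul_le_mul_of_nonneg_right (ih _ fun r => ?_) (by norm_num)
      have := inS_shift (hM r.succ) i k hik.symm
      convert this using 2 with j
      rw [Matrix.submatrix_apply, hN]
      by_cases hj : i.succAbove j = k
      · rw [hj, Matrix.updateCol_self, Function.update_self,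
          Matrix.updateRow_ne (Fin.succ_ne_zero r), smul_eq_mul]
      · rw [Matrix.updateCol_ne hj, Function.update_of_ne hj,
          Matrix.updateRow_ne (Fin.succ_ne_zero r)]
    have hdet : M.det = ∑ j, M 0 j * cof M j := by
      rw [← det_updateRow_zero, Matrix.updateRow_eq_self]
    obtain ⟨hp, hn⟩ := hM 0
    -- a linear functional with these bounds is small on the set
    have key : ∀ c : Fin (m + 1) → ℝ, (∀ i, |c i| ≤ 2 ^ m) →
        (∀ i k, i ≠ k → |2 * c i - c k| ≤ 2 ^ (m + 1)) → ∑ j, M 0 j * c j ≤ 2 ^ (m + 1) := by
      intro c h1 h2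
      obtain ⟨a, -, ha⟩ := Finset.exists_max_image univ c ⟨0, mem_univ _⟩
      obtain ⟨b, -, hb⟩ := Finset.exists_min_image univ c ⟨0, mem_univ _⟩
      have e : ∀ j, M 0 j * c j ≤ max (M 0 j) 0 * max (c a) 0 + max (-M 0 j) 0 * max (-c b) 0 := by
        intro j
        have h3 := ha j (mem_univ _)
        have h4 := hb j (mem_univ _)
        have h5 := le_max_left (c a) 0
        have h6 := le_max_left (-c b) 0
        have h7 := le_max_right (c a) 0
        have h8 := le_max_right (-c b) 0
        rcases le_total 0 (M 0 j) with h | h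
        · rw [max_eq_left h, max_eq_right (by linarith : -M 0 j ≤ 0)]
          nlinarith
        · rw [max_eq_right h, max_eq_left (by linarith : 0 ≤ -M 0 j)]
          nlinarith
      have e2 : ∑ j, M 0 j * c j ≤ 2 * max (c a) 0 + max (-c b) 0 := by
        calc ∑ j, M 0 j * c j
            ≤ ∑ j, (max (M 0 j) 0 * max (c a) 0 + max (-M 0 j) 0 * max (-c b) 0) :=
              Finset.sum_le_sum fun j _ => e j
          _ = (∑ j, max (M 0 j) 0) * max (c a) 0 + (∑ j, max (-M 0 j) 0) * max (-c b) 0 := by
              rw [Finset.sum_add_distrib, Finset.sum_mul, Finset.sum_mul]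
          _ ≤ 2 * max (c a) 0 + 1 * max (-c b) 0 :=
              add_le_add (mul_le_mul_of_nonneg_right hp (le_max_right _ _))
                (mul_le_mul_of_nonneg_right hn (le_max_right _ _))
          _ = _ := by rw [one_mul]
      refine e2.trans ?_
      have h2m : (0 : ℝ) < 2 ^ m := by positivity
      have ha1 := (abs_le.1 (h1 a)).2
      have hb1 := (abs_le.1 (h1 b)).1
      rw [pow_succ]
      rcases le_or_gt (c a) 0 with h3 | h3
      · rw [max_eq_right h3]
        have : max (-c b) 0 ≤ 2 ^ m := max_le (by linarith) h2m.le
        linarith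
      · rcases le_or_gt 0 (c b) with h4 | h4
        · rw [max_eq_left h3.le, max_eq_right (by linarith : -c b ≤ 0)]
          linarith
        · rw [max_eq_left h3.le, max_eq_left (by linarith : 0 ≤ -c b)]
          have hab : a ≠ b := by rintro rfl; linarith
          have := (abs_le.1 (h2 a b hab)).2
          rw [pow_succ] at this
          linarith
    rw [hdet, abs_le]
    constructor
    · have := key (fun j => -cof M j) (fun i => by rw [abs_neg]; exact hC i) (fun i k hik => by
        have h3 := hC2 i k hik
        rw [show 2 * -cof M i - -cof M k = -(2 * cof M i - cof M k) by ring, abs_neg]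
        exact h3)
      simp only [mul_neg, Finset.sum_neg_distrib] at this
      linarith
    · exact key _ hC hC2

theorem sum_filter_list (f : ℝ → ℝ) (hf : f 0 = 0) (l : List ℝ) :
    (l.map f).sum = ((l.filter (fun x => x ≠ 0)).map f).sum := by
  induction l with
  | nil => rfl
  | cons a l ih =>
    by_cases h : a = 0
    · subst h
      simp only [List.map_cons, List.sum_cons, hf, zero_add, ih]
      simp
    · simp only [List.map_cons, List.sum_cons, ih]
      rw [List.filter_cons_of_pos (by simpa using h)]
      simp

theorem admissible_inS {m n : ℕ} (B : Matrix (Fin m) (Fin n) ℝ) (hB : Admissible B) (r : Fin m) :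
    InS (B r) := by
  have h := hB r
  have e : ∀ f : ℝ → ℝ, f 0 = 0 → ∑ j, f (B r j) =
      (((List.ofFn (B r)).filter (fun x => x ≠ 0)).map f).sum := by
    intro f hf
    rw [← sum_filter_list f hf, List.map_ofFn, List.sum_ofFn]
    rfl
  constructor
  · rw [e (fun x => max x 0) (by simp)]
    simp only [List.mem_cons, List.not_mem_nil, or_false] at h
    rcases h with h | h | h | h | h | h <;> rw [h] <;> simp <;> norm_num
  · rw [e (fun x => max (-x) 0) (by simp)]
    simp only [List.mem_cons, List.not_mem_nil, or_false] at h
    rcases h with h | h | h | h | h | h <;> rw [h] <;> simp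

/-- Every determinant obtained from an admissible matrix with `m = n - 1` rows and `n = m + 1`
columns by removing one column is at most `2 ^ (n - 1)` in absolute value. -/
theorem result (m : ℕ) (B : Matrix (Fin m) (Fin (m + 1)) ℝ) (hB : Admissible B)
    (j : Fin (m + 1)) : |(B.submatrix id j.succAbove).det| ≤ 2 ^ m :=
  det_le m _ fun r => inS_succAbove (admissible_inS B hB r) j

end Pool.Agent.Results.MP_a06539_co.PowerOfTwo
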